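import Pool.Agent.helper86.OF.SpecM

/-!
# Project of: module MDA (the edges at the exceptional vertices)
-/

set_option autoImplicit false

open scoped BigOperators

namespace Pool.Agent.OF

noncomputable section

open Classical

/-- the invariant: the edges at the vertices of `S` are coloured -/
structure MDA_Inv {V : Type} [Fintype V] (G : SimpleGraph V) (D : ℕ) (X : Finset V)
    (c : Sym2 V → ℕ) (T : V → Finset ℕ) (F : Finset ℕ) (Rs : SimpleGraph V) (S : Finset V)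
    (cS : Sym2 V → ℕ) : Prop where
  pec : PEC (KG G X S Rs) D cS
  ext : ∀ v w, (outG G X).Adj v w → cS s(v, w) = c s(v, w)
  nF : ∀ v ∈ S, ∀ w ∈ X, (KG G X S Rs).Adj v w → cS s(v, w) ∉ F
  all : ∀ v ∈ S, ∀ i < D, i ∉ F → i ∈ T v ∨ has (KG G X S Rs) cS v i
  tok : ∀ v ∈ X, ∀ i ∈ T v, ¬ has (KG G X S Rs) cS v i

theorem MDA_adj {V : Type} [Fintype V] (G : SimpleGraph V) (X S : Finset V)
    (Rs : SimpleGraph V) (a b : V) : (KG G X S Rs).Adj a b ↔
      (G.Adj a b ∧ ¬ (a ∈ X \ S ∧ b ∈ X \ S)) ∧ ¬ Rs.Adj a b := Iff.rfl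

/-- the bijection, colours in `ℕ` -/
theorem MDA_bij (hDBJ : DBJ_stmt) {V : Type} [Fintype V] (P : Finset V) (Q : Finset ℕ) (D : ℕ)
    (hQ : Q ⊆ Finset.range D) (bad : V → ℕ → Prop) (hPQ : P.card = Q.card)
    (h1 : ∀ p ∈ P, 2 * (Q.filter fun q => bad p q).card ≤ P.card)
    (h2 : ∀ q ∈ Q, 2 * (P.filter fun p => bad p q).card ≤ P.card) :
    ∃ f : V → ℕ, (∀ p ∈ P, f p ∈ Q ∧ ¬ bad p (f p)) ∧ (∀ q ∈ Q, ∃ p ∈ P, f p = q) ∧
      ∀ p ∈ P, ∀ p' ∈ P, f p = f p' → p = p' := by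
  have hcard : ∀ R : Finset ℕ, R ⊆ Finset.range D →
      (Finset.univ.filter fun i : Fin (D + 1) => (i : ℕ) ∈ R).card = R.card := by
    intro R hR
    rw [← Finset.card_map (Fin.valEmbedding : Fin (D + 1) ↪ ℕ)]
    congr 1
    ext i
    simp only [Finset.mem_map, Finset.mem_filter, Finset.mem_univ, true_and,
      Fin.valEmbedding_apply]
    constructor
    · rintro ⟨a, ha, rfl⟩
      exact ha
    · intro hi
      exact ⟨⟨i, by have := Finset.mem_range.1 (hR hi); omega⟩, hi, rfl⟩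
  obtain ⟨f, hf1, hf2, hf3⟩ := hDBJ V (Fin (D + 1)) P
    (Finset.univ.filter fun i : Fin (D + 1) => (i : ℕ) ∈ Q) (fun p i => bad p (i : ℕ))
    (by rw [hcard Q hQ]; exact hPQ)
    (by
      intro p hp
      refine le_trans (le_of_eq ?_) (h1 p hp)
      congr 1
      rw [← hcard (Q.filter fun q => bad p q) ((Finset.filter_subset _ _).trans hQ),
        Finset.filter_filter]
      congr 1
      ext i
      simp only [Finset.mem_filter])
    (by
      intro q hq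
      exact h2 (q : ℕ) (Finset.mem_filter.1 hq).2)
  refine ⟨fun v => (f v : ℕ), fun p hp => ⟨(Finset.mem_filter.1 (hf1 p hp).1).2, (hf1 p hp).2⟩,
    fun q hq => ?_, fun p hp p' hp' h => hf3 p hp p' hp' (Fin.ext h)⟩
  obtain ⟨p, hp, h⟩ := hf2 ⟨q, by have := Finset.mem_range.1 (hQ hq); omega⟩
    (Finset.mem_filter.2 ⟨Finset.mem_univ _, hq⟩)
  exact ⟨p, hp, congrArg Fin.val h⟩

/-- the new colouring -/
def MDA_col {V : Type} (v : V) (P : Finset V) (f : V → ℕ) (cS : Sym2 V → ℕ) : Sym2 V → ℕ :=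
  fun e => if h : ∃ w, w ∈ P ∧ e = s(v, w) then f h.choose else cS e

theorem MDA_col_new {V : Type} (v : V) (P : Finset V) (f : V → ℕ) (cS : Sym2 V → ℕ) (w : V)
    (hw : w ∈ P) : MDA_col v P f cS s(v, w) = f w := by
  have h : ∃ w', w' ∈ P ∧ s(v, w) = s(v, w') := ⟨w, hw, rfl⟩
  unfold MDA_col
  rw [dif_pos h]
  have h1 := h.choose_spec.2
  congr 1
  exact (Sym2.congr_right.1 h1).symm

theorem MDA_col_old {V : Type} (v : V) (P : Finset V) (f : V → ℕ) (cS : Sym2 V → ℕ) (a b : V)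
    (h : ¬ (a = v ∧ b ∈ P)) (h' : ¬ (b = v ∧ a ∈ P)) :
    MDA_col v P f cS s(a, b) = cS s(a, b) := by
  have h1 : ¬ ∃ w, w ∈ P ∧ s(a, b) = s(v, w) := by
    rintro ⟨w, hw, e⟩
    rw [Sym2.eq_iff] at e
    rcases e with ⟨rfl, rfl⟩ | ⟨rfl, rfl⟩
    · exact h ⟨rfl, hw⟩
    · exact h' ⟨rfl, hw⟩
  unfold MDA_col
  rw [dif_neg h1]

/-- the new edges at `v` -/
def MDA_P {V : Type} [Fintype V] (G : SimpleGraph V) (X S : Finset V) (Rs : SimpleGraph V)
    (v : V) : Finset V := Finset.univ.filter fun w => w ∈ X \ S ∧ G.Adj v w ∧ ¬ Rs.Adj v w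

theorem MDA_adj_insert {V : Type} [Fintype V] (G : SimpleGraph V) (X S : Finset V)
    (Rs : SimpleGraph V) (v : V) (hv : v ∈ X) (hvS : v ∉ S) (a b : V) :
    (KG G X (insert v S) Rs).Adj a b ↔ (KG G X S Rs).Adj a b ∨
      (a = v ∧ b ∈ MDA_P G X S Rs v) ∨ (b = v ∧ a ∈ MDA_P G X S Rs v) := by
  rw [MDA_adj, MDA_adj]
  simp only [MDA_P, Finset.mem_filter, Finset.mem_univ, true_and, Finset.mem_sdiff,
    Finset.mem_insert, not_or]
  constructor
  · rintro ⟨⟨h1, h2⟩, h3⟩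
    by_cases h4 : (a ∈ X ∧ a ∉ S) ∧ b ∈ X ∧ b ∉ S
    · right
      obtain ⟨⟨ha, ha'⟩, hb, hb'⟩ := h4
      by_cases hav : a = v
      · subst hav
        exact Or.inl ⟨rfl, ⟨hb, hb'⟩, h1, h3⟩
      · by_cases hbv : b = v
        · subst hbv
          exact Or.inr ⟨rfl, ⟨ha, ha'⟩, h1.symm, fun h => h3 h.symm⟩
        · exact absurd ⟨⟨ha, hav, ha'⟩, hb, hbv, hb'⟩ h2
    · exact Or.inl ⟨⟨h1, h4⟩, h3⟩
  · rintro (⟨⟨h1, h2⟩, h3⟩ | ⟨rfl, ⟨hb, hb'⟩, h1, h3⟩ | ⟨rfl, ⟨ha, ha'⟩, h1, h3⟩)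
    · refine ⟨⟨h1, ?_⟩, h3⟩
      rintro ⟨⟨ha, _, ha'⟩, hb, _, hb'⟩
      exact h2 ⟨⟨ha, ha'⟩, hb, hb'⟩
    · exact ⟨⟨h1, fun h => h.1.2.1 rfl⟩, h3⟩
    · exact ⟨⟨h1.symm, fun h => h.2.2.1 rfl⟩, fun h => h3 h.symm⟩

theorem MDA_step {V : Type} [Fintype V] (G : SimpleGraph V) (D : ℕ) (X : Finset V)
    (c : Sym2 V → ℕ) (T : V → Finset ℕ) (F : Finset ℕ) (Rs : SimpleGraph V) (S : Finset V)
    (cS : Sym2 V → ℕ) (h : MDA_Inv G D X c T F Rs S cS) (v : V) (hv : v ∈ X) (hvS : v ∉ S)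
    (f : V → ℕ)
    (hf1 : ∀ w ∈ MDA_P G X S Rs v, (f w < D ∧ f w ∉ F ∧ f w ∉ T v ∧
      ¬ has (KG G X S Rs) cS v (f w)) ∧ f w ∉ T w ∧ ¬ has (KG G X S Rs) cS w (f w))
    (hf2 : ∀ i < D, i ∉ F → i ∉ T v → ¬ has (KG G X S Rs) cS v i →
      ∃ w ∈ MDA_P G X S Rs v, f w = i)
    (hf3 : ∀ w ∈ MDA_P G X S Rs v, ∀ w' ∈ MDA_P G X S Rs v, f w = f w' → w = w') :
    MDA_Inv G D X c T F Rs (insert v S) (MDA_col v (MDA_P G X S Rs v) f cS) := by
  have hvP : v ∉ MDA_P G X S Rs v := by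
    intro h1
    exact G.loopless.irrefl v (Finset.mem_filter.1 h1).2.2.1
  have hPX : ∀ w ∈ MDA_P G X S Rs v, w ∈ X ∧ w ∉ S := by
    intro w hw
    exact Finset.mem_sdiff.1 (Finset.mem_filter.1 hw).2.1
  have hold : ∀ a b, (KG G X S Rs).Adj a b → ¬ (a = v ∧ b ∈ MDA_P G X S Rs v) ∧
      ¬ (b = v ∧ a ∈ MDA_P G X S Rs v) := by
    intro a b hab
    have h1 := (((MDA_adj G X S Rs a b).1 hab).1).2
    constructor
    · rintro ⟨rfl, hb⟩
      exact h1 ⟨Finset.mem_sdiff.2 ⟨hv, hvS⟩, Finset.mem_sdiff.2 (hPX b hb)⟩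
    · rintro ⟨rfl, ha⟩
      exact h1 ⟨Finset.mem_sdiff.2 (hPX a ha), Finset.mem_sdiff.2 ⟨hv, hvS⟩⟩
  have hco : ∀ a b, (KG G X S Rs).Adj a b →
      MDA_col v (MDA_P G X S Rs v) f cS s(a, b) = cS s(a, b) := fun a b hab =>
    MDA_col_old v _ f cS a b (hold a b hab).1 (hold a b hab).2
  have hcn : ∀ w ∈ MDA_P G X S Rs v, MDA_col v (MDA_P G X S Rs v) f cS s(v, w) = f w :=
    fun w hw => MDA_col_new v _ f cS w hw
  have hcn' : ∀ w ∈ MDA_P G X S Rs v, MDA_col v (MDA_P G X S Rs v) f cS s(w, v) = f w := by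
    intro w hw
    rw [Sym2.eq_swap]
    exact hcn w hw
  have hadj := MDA_adj_insert G X S Rs v hv hvS
  constructor
  · constructor
    · intro a b hab
      rcases (hadj a b).1 hab with h1 | ⟨rfl, h1⟩ | ⟨rfl, h1⟩
      · rw [hco a b h1]
        exact h.pec.1 a b h1
      · rw [hcn b h1]
        exact (hf1 b h1).1.1
      · rw [hcn' a h1]
        exact (hf1 a h1).1.1
    · intro a b b' hab hab' hc
      rcases (hadj a b).1 hab with h1 | ⟨e1, h1⟩ | ⟨e1, h1⟩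
      · rcases (hadj a b').1 hab' with h2 | ⟨e2, h2⟩ | ⟨e2, h2⟩
        · rw [hco a b h1, hco a b' h2] at hc
          exact h.pec.2 a b b' h1 h2 hc
        · subst e2
          rw [hco a b h1, hcn b' h2] at hc
          exact absurd ⟨b, h1, hc⟩ (hf1 b' h2).1.2.2.2
        · subst e2
          rw [hco a b h1, hcn' a h2] at hc
          exact absurd ⟨b, h1, hc⟩ (hf1 a h2).2.2
      · subst e1
        rcases (hadj a b').1 hab' with h2 | ⟨e2, h2⟩ | ⟨e2, h2⟩
        · rw [hcn b h1, hco a b' h2] at hc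
          exact absurd ⟨b', h2, hc.symm⟩ (hf1 b h1).1.2.2.2
        · rw [hcn b h1, hcn b' h2] at hc
          exact hf3 b h1 b' h2 hc
        · exact absurd h2 hvP
      · subst e1
        rcases (hadj a b').1 hab' with h2 | ⟨e2, h2⟩ | ⟨e2, h2⟩
        · rw [hcn' a h1, hco a b' h2] at hc
          exact absurd ⟨b', h2, hc.symm⟩ (hf1 a h1).2.2
        · subst e2
          exact absurd h1 hvP
        · exact e2.symm
  · intro a b hab
    rw [MDA_col_old]
    · exact h.ext a b hab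
    · rintro ⟨rfl, hb⟩
      exact hab.2 ⟨hv, (hPX b hb).1⟩
    · rintro ⟨rfl, ha⟩
      exact hab.2 ⟨(hPX a ha).1, hv⟩
  · intro a ha b hb hab
    rcases (hadj a b).1 hab with h1 | ⟨rfl, h1⟩ | ⟨rfl, h1⟩
    · rw [hco a b h1]
      rcases Finset.mem_insert.1 ha with rfl | ha
      · have hbS : b ∈ S := by
          by_contra hbS
          exact (((MDA_adj G X S Rs a b).1 h1).1).2 ⟨Finset.mem_sdiff.2 ⟨hv, hvS⟩,
            Finset.mem_sdiff.2 ⟨hb, hbS⟩⟩
        rw [Sym2.eq_swap]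
        exact h.nF b hbS a hv h1.symm
      · exact h.nF a ha b hb h1
    · rw [hcn b h1]
      exact (hf1 b h1).1.2.1
    · rw [hcn' a h1]
      exact (hf1 a h1).1.2.1
  · intro a ha i hi hiF
    have hmono : has (KG G X S Rs) cS a i →
        has (KG G X (insert v S) Rs) (MDA_col v (MDA_P G X S Rs v) f cS) a i := by
      rintro ⟨w, hw, hc⟩
      exact ⟨w, (hadj a w).2 (Or.inl hw), by rw [hco a w hw]; exact hc⟩
    rcases Finset.mem_insert.1 ha with rfl | ha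
    · by_cases h1 : i ∈ T a
      · exact Or.inl h1
      by_cases h2 : has (KG G X S Rs) cS a i
      · exact Or.inr (hmono h2)
      · obtain ⟨w, hw, hfw⟩ := hf2 i hi hiF h1 h2
        exact Or.inr ⟨w, (hadj a w).2 (Or.inr (Or.inl ⟨rfl, hw⟩)), by rw [hcn w hw]; exact hfw⟩
    · rcases h.all a ha i hi hiF with h1 | h1
      · exact Or.inl h1
      · exact Or.inr (hmono h1)
  · intro a ha i hi
    rintro ⟨w, hw, hc⟩
    rcases (hadj a w).1 hw with h1 | ⟨rfl, h1⟩ | ⟨rfl, h1⟩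
    · rw [hco a w h1] at hc
      exact h.tok a ha i hi ⟨w, h1, hc⟩
    · rw [hcn w h1] at hc
      exact (hf1 w h1).1.2.2.1 (hc ▸ hi)
    · rw [hcn' a h1] at hc
      exact (hf1 a h1).2.1 (hc ▸ hi)

theorem MDA_deg {V : Type} [Fintype V] (G : SimpleGraph V) (X S : Finset V) (Rs : SimpleGraph V)
    (v : V) (hv : v ∈ X) (hvS : v ∉ S) (hR : Rs ≤ G) :
    dg G v = dg (KG G X S Rs) v + dg Rs v + (MDA_P G X S Rs v).card := by
  unfold dg dgs MDA_P
  rw [← Finset.card_union_of_disjoint, ← Finset.card_union_of_disjoint]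
  · congr 1
    ext w
    simp only [Finset.mem_filter, Finset.mem_univ, true_and, Finset.mem_union, MDA_adj,
      Finset.mem_sdiff]
    constructor
    · intro h
      by_cases h1 : Rs.Adj v w
      · exact Or.inl (Or.inr h1)
      by_cases h2 : w ∈ X ∧ w ∉ S
      · exact Or.inr ⟨h2, h, h1⟩
      · exact Or.inl (Or.inl ⟨⟨h, fun h3 => h2 h3.2⟩, h1⟩)
    · rintro ((h | h) | h)
      · exact h.1.1
      · exact hR h
      · exact h.2.1
  · rw [Finset.disjoint_left]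
    intro w hw hw'
    simp only [Finset.mem_filter, Finset.mem_univ, true_and, Finset.mem_union, MDA_adj,
      Finset.mem_sdiff] at hw hw'
    rcases hw with h | h
    · exact h.1.2 ⟨⟨hv, hvS⟩, hw'.1⟩
    · exact hw'.2.2 h
  · rw [Finset.disjoint_left]
    intro w hw hw'
    simp only [Finset.mem_filter, Finset.mem_univ, true_and, MDA_adj] at hw hw'
    exact hw.2 hw'

/-- the free colours at `v` -/
def MDA_Q {V : Type} [Fintype V] (G : SimpleGraph V) (D : ℕ) (X : Finset V) (T : V → Finset ℕ)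
    (F : Finset ℕ) (Rs : SimpleGraph V) (S : Finset V) (cS : Sym2 V → ℕ) (v : V) : Finset ℕ :=
  (Finset.range D).filter fun i => i ∉ F ∧ i ∉ T v ∧ ¬ has (KG G X S Rs) cS v i

theorem MDA_cardQ (hSCN : SCN_stmt) {V : Type} [Fintype V] (G : SimpleGraph V) (D : ℕ)
    (X : Finset V) (c : Sym2 V → ℕ) (T : V → Finset ℕ) (F : Finset ℕ) (Rs : SimpleGraph V)
    (S : Finset V) (cS : Sym2 V → ℕ) (h : MDA_Inv G D X c T F Rs S cS) (v : V) (hv : v ∈ X)
    (hvS : v ∉ S) (hRv : ∀ a b, Rs.Adj a b → a ∈ X ∧ b ∈ X) (hR : Rs ≤ G)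
    (hF : F ⊆ Finset.range D) (hTr : T v ⊆ Finset.range D) (hTd : (T v).card + dg G v = D)
    (hdR : dg Rs v + (F.filter fun j => v ∈ Hs G X c T j).card = F.card) :
    (MDA_P G X S Rs v).card = (MDA_Q G D X T F Rs S cS v).card := by
  have h1 := MDA_deg G X S Rs v hv hvS hR
  have h2 := hSCN V (KG G X S Rs) D cS h.pec v
  set Hn : Finset ℕ := (Finset.range D).filter fun i => has (KG G X S Rs) cS v i with hHn
  have hdis : Disjoint (T v) Hn := by
    rw [Finset.disjoint_left]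
    intro i hi hi'
    exact h.tok v hv i hi (Finset.mem_filter.1 hi').2
  have hU : (T v ∪ Hn).card = (T v).card + Hn.card := Finset.card_union_of_disjoint hdis
  have hUr : T v ∪ Hn ⊆ Finset.range D := Finset.union_subset hTr (Finset.filter_subset _ _)
  have h3 : (Finset.range D \ (T v ∪ Hn)).card + (T v ∪ Hn).card = D := by
    rw [Finset.card_sdiff_add_card_eq_card hUr, Finset.card_range]
  have h4 : (Finset.range D \ (T v ∪ Hn)) = MDA_Q G D X T F Rs S cS v ∪ (F \ (T v ∪ Hn)) := by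
    ext i
    simp only [MDA_Q, hHn, Finset.mem_sdiff, Finset.mem_union, Finset.mem_filter, Finset.mem_range,
      not_or, not_and]
    constructor
    · rintro ⟨hi, hiT, hiH⟩
      by_cases hiF : i ∈ F
      · exact Or.inr ⟨hiF, hiT, hiH⟩
      · exact Or.inl ⟨hi, hiF, hiT, hiH hi⟩
    · rintro (⟨hi, hiF, hiT, hiH⟩ | ⟨hiF, hiT, hiH⟩)
      · exact ⟨hi, hiT, fun _ => hiH⟩
      · exact ⟨Finset.mem_range.1 (hF hiF), hiT, hiH⟩
  have h5 : (Finset.range D \ (T v ∪ Hn)).card =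
      (MDA_Q G D X T F Rs S cS v).card + (F \ (T v ∪ Hn)).card := by
    rw [h4]
    apply Finset.card_union_of_disjoint
    rw [Finset.disjoint_left]
    intro i hi hi'
    exact (Finset.mem_filter.1 hi).2.1 (Finset.mem_sdiff.1 hi').1
  have h6 : F ∩ (T v ∪ Hn) = F.filter fun j => v ∈ Hs G X c T j := by
    ext i
    simp only [hHn, Finset.mem_inter, Finset.mem_union, Finset.mem_filter, Finset.mem_range, Hs]
    constructor
    · rintro ⟨hiF, hi⟩
      refine ⟨hiF, hv, ?_⟩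
      rcases hi with hi | ⟨_, w, hw, hc⟩
      · exact Or.inl hi
      · right
        have hw' := (MDA_adj G X S Rs v w).1 hw
        by_cases hwX : w ∈ X
        · exfalso
          have hwS : w ∈ S := by
            by_contra hwS
            exact hw'.1.2 ⟨Finset.mem_sdiff.2 ⟨hv, hvS⟩, Finset.mem_sdiff.2 ⟨hwX, hwS⟩⟩
          have h7 := h.nF w hwS v hv hw.symm
          rw [Sym2.eq_swap, hc] at h7
          exact h7 hiF
        · have h8 : (outG G X).Adj v w := ⟨hw'.1.1, fun h9 => hwX h9.2⟩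
          exact ⟨w, h8, by rw [← h.ext v w h8]; exact hc⟩
    · rintro ⟨hiF, _, hi⟩
      refine ⟨hiF, ?_⟩
      rcases hi with hi | ⟨w, hw, hc⟩
      · exact Or.inl hi
      · refine Or.inr ⟨Finset.mem_range.1 (hF hiF), w, ?_, ?_⟩
        · rw [MDA_adj]
          refine ⟨⟨hw.1, fun h9 => hw.2 ⟨(Finset.mem_sdiff.1 h9.1).1, (Finset.mem_sdiff.1 h9.2).1⟩⟩, ?_⟩
          intro h9
          exact hw.2 (hRv v w h9)
        · rw [h.ext v w hw]
          exact hc
  have h7 : (F ∩ (T v ∪ Hn)).card + (F \ (T v ∪ Hn)).card = F.card :=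
    Finset.card_inter_add_card_sdiff _ _
  rw [h6] at h7
  omega

theorem MDA_dgK0 {V : Type} [Fintype V] (G K : SimpleGraph V) (X S : Finset V)
    (w : V) (h : ∀ z, K.Adj w z → (z ∉ X ∧ G.Adj w z) ∨ z ∈ S) :
    dg K w ≤ dgs G Xᶜ w + S.card := by
  unfold dg dgs
  refine le_trans (Finset.card_le_card ?_) (Finset.card_union_le _ _)
  intro z hz
  rw [Finset.mem_filter] at hz
  rw [Finset.mem_union, Finset.mem_filter, Finset.mem_compl]
  exact h z hz.2

theorem MDA_dgK {V : Type} [Fintype V] (G : SimpleGraph V) (X S : Finset V) (Rs : SimpleGraph V)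
    (w : V) (hw : w ∈ X) (hwS : w ∉ S) : dg (KG G X S Rs) w ≤ dgs G Xᶜ w + S.card := by
  refine MDA_dgK0 G _ X S w (fun z hz => ?_)
  have h1 := (MDA_adj G X S Rs w z).1 hz
  by_cases hzX : z ∈ X
  · right
    by_contra hzS
    exact h1.1.2 ⟨Finset.mem_sdiff.2 ⟨hw, hwS⟩, Finset.mem_sdiff.2 ⟨hzX, hzS⟩⟩
  · exact Or.inl ⟨hzX, h1.1.1⟩

theorem MDA_badw (hSCN : SCN_stmt) {V : Type} [Fintype V] (G : SimpleGraph V) (D : ℕ)
    (X : Finset V) (c : Sym2 V → ℕ) (T : V → Finset ℕ) (F : Finset ℕ) (Rs : SimpleGraph V)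
    (S : Finset V) (cS : Sym2 V → ℕ) (h : MDA_Inv G D X c T F Rs S cS) (bad : V → ℕ → Prop)
    (hb : ∀ w i, bad w i → (i ∈ T w ∨ has (KG G X S Rs) cS w i)) (Q : Finset ℕ)
    (hQ : Q ⊆ Finset.range D) (w : V) (hw : w ∈ X) (hwS : w ∉ S) :
    (Q.filter fun i => bad w i).card ≤ (T w).card + (dgs G Xᶜ w + S.card) := by
  have h2 := hSCN V (KG G X S Rs) D cS h.pec w
  refine le_trans (Finset.card_le_card (t := T w ∪ (Finset.range D).filter fun i =>
    has (KG G X S Rs) cS w i) ?_) ((Finset.card_union_le _ _).trans ?_)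
  · intro i hi
    rw [Finset.mem_filter] at hi
    rw [Finset.mem_union, Finset.mem_filter]
    rcases hb w i hi.2 with h3 | h3
    · exact Or.inl h3
    · exact Or.inr ⟨hQ hi.1, h3⟩
  · rw [h2]
    exact Nat.add_le_add_left (MDA_dgK G X S Rs w hw hwS) _

theorem MDA_badi {V : Type} [Fintype V] (G : SimpleGraph V) (D : ℕ)
    (X : Finset V) (c : Sym2 V → ℕ) (T : V → Finset ℕ) (F : Finset ℕ) (Rs : SimpleGraph V)
    (S : Finset V) (cS : Sym2 V → ℕ) (h : MDA_Inv G D X c T F Rs S cS) (bad : V → ℕ → Prop)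
    (hb : ∀ w i, bad w i → (i ∈ T w ∨ has (KG G X S Rs) cS w i)) (P : Finset V)
    (hP : ∀ w ∈ P, w ∈ X ∧ w ∉ S) (i : ℕ) :
    (P.filter fun w => bad w i).card ≤ (Hs G X c T i).card + S.card := by
  have h0 : (P.filter fun w => bad w i) ⊆
      Hs G X c T i ∪ S.image (fun s => ptn (KG G X S Rs) cS i s) := by
    intro w hw
    rw [Finset.mem_filter] at hw
    obtain ⟨hwP, hw⟩ := hw
    obtain ⟨hwX, hwS⟩ := hP w hwP
    rw [Finset.mem_union]
    rcases hb w i hw with h1 | ⟨z, hz, hc⟩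
    · exact Or.inl (Finset.mem_filter.2 ⟨hwX, Or.inl h1⟩)
    · have hz' := (MDA_adj G X S Rs w z).1 hz
      by_cases hzX : z ∈ X
      · have hzS : z ∈ S := by
          by_contra hzS
          exact hz'.1.2 ⟨Finset.mem_sdiff.2 ⟨hwX, hwS⟩, Finset.mem_sdiff.2 ⟨hzX, hzS⟩⟩
        right
        rw [Finset.mem_image]
        refine ⟨z, hzS, ?_⟩
        have h2 : ∃ w', (KG G X S Rs).Adj z w' ∧ cS s(z, w') = i :=
          ⟨w, hz.symm, by rw [Sym2.eq_swap]; exact hc⟩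
        unfold ptn
        rw [dif_pos h2]
        refine h.pec.2 z _ _ h2.choose_spec.1 hz.symm ?_
        rw [h2.choose_spec.2, Sym2.eq_swap]
        exact hc.symm
      · left
        have h8 : (outG G X).Adj w z := ⟨hz'.1.1, fun h9 => hzX h9.2⟩
        exact Finset.mem_filter.2 ⟨hwX, Or.inr ⟨z, h8, by rw [← h.ext w z h8]; exact hc⟩⟩
  refine (Finset.card_le_card h0).trans ((Finset.card_union_le _ _).trans ?_)
  exact Nat.add_le_add_left Finset.card_image_le _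

theorem MDA_next (hDBJ : DBJ_stmt) (hSCN : SCN_stmt) {V : Type} [Fintype V] (G : SimpleGraph V)
    (D : ℕ) (X : Finset V) (c : Sym2 V → ℕ) (T : V → Finset ℕ) (F : Finset ℕ) (Rs : SimpleGraph V)
    (S : Finset V) (cS : Sym2 V → ℕ) (U q0 : ℕ) (ε : ℝ) (hT : Tmpl G D X c T U (ε / 2))
    (hε2 : ε ≤ 1 / 2) (hN : (15 * q0 + 4 * U : ℝ) ≤ Fintype.card V)
    (hD : (1 / 2 + ε) * Fintype.card V ≤ D) (hFc : (F.card : ℝ) ≤ ε / 10 * Fintype.card V)
    (h : MDA_Inv G D X c T F Rs S cS) (v : V) (hv : v ∈ X)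
    (hvS : v ∉ S) (hSc : S.card ≤ q0) (hRv : ∀ a b, Rs.Adj a b → a ∈ X ∧ b ∈ X) (hR : Rs ≤ G)
    (hF : F ⊆ Finset.range D)
    (hdR : dg Rs v + (F.filter fun j => v ∈ Hs G X c T j).card = F.card) :
    ∃ cS', MDA_Inv G D X c T F Rs (insert v S) cS' := by
  obtain ⟨hTr, hTd, _⟩ := hT.tok v hv
  have hPQ := MDA_cardQ hSCN G D X c T F Rs S cS h v hv hvS hRv hR hF hTr hTd hdR
  have hPX : ∀ w ∈ MDA_P G X S Rs v, w ∈ X ∧ w ∉ S := by
    intro w hw
    exact Finset.mem_sdiff.1 (Finset.mem_filter.1 hw).2.1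
  have hQr : MDA_Q G D X T F Rs S cS v ⊆ Finset.range D := Finset.filter_subset _ _
  have hdeg := MDA_deg G X S Rs v hv hvS hR
  have hdK := MDA_dgK G X S Rs v hv hvS
  have hlit := hT.lit v hv
  have hcard : (0 : ℝ) ≤ Fintype.card V := Nat.cast_nonneg _
  have hP : (1 / 2 + 2 * ε / 5) * Fintype.card V - q0 ≤ ((MDA_P G X S Rs v).card : ℝ) := by
    have e1 : (dg G v : ℝ) = dg (KG G X S Rs) v + dg Rs v + (MDA_P G X S Rs v).card := by
      exact_mod_cast hdeg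
    have e2 : (dg (KG G X S Rs) v : ℝ) ≤ dgs G Xᶜ v + S.card := by exact_mod_cast hdK
    have e3 : ((T v).card : ℝ) + dg G v = D := by exact_mod_cast hTd
    have e4 : (dg Rs v : ℝ) ≤ F.card := by
      have : dg Rs v ≤ F.card := by omega
      exact_mod_cast this
    have e5 : (S.card : ℝ) ≤ q0 := by exact_mod_cast hSc
    nlinarith
  obtain ⟨bad, hbad⟩ : ∃ bad : V → ℕ → Prop, ∀ w i, bad w i ↔
      (i ∈ T w ∨ has (KG G X S Rs) cS w i) := ⟨_, fun _ _ => Iff.rfl⟩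
  have e5 : (S.card : ℝ) ≤ q0 := by exact_mod_cast hSc
  have h7 : (0 : ℝ) ≤ q0 := Nat.cast_nonneg _
  have h8 : (0 : ℝ) ≤ U := Nat.cast_nonneg _
  obtain ⟨f, hf1, hf2, hf3⟩ := MDA_bij hDBJ (MDA_P G X S Rs v) (MDA_Q G D X T F Rs S cS v) D hQr
    bad hPQ
    (by
      intro w hw
      obtain ⟨hwX, hwS⟩ := hPX w hw
      have e1 := MDA_badw hSCN G D X c T F Rs S cS h bad (fun w i => (hbad w i).1) _ hQr w hwX hwS
      have e2 := hT.lit w hwX
      have e1' : (((MDA_Q G D X T F Rs S cS v).filter fun i => bad w i).card : ℝ) ≤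
          (T w).card + (dgs G Xᶜ w + S.card) := by
        exact_mod_cast e1
      have e6 : (2 * (((MDA_Q G D X T F Rs S cS v).filter fun i => bad w i).card : ℝ)) ≤
          ((MDA_P G X S Rs v).card : ℝ) := by
        nlinarith
      exact_mod_cast e6)
    (by
      intro i hi
      have hiD : i < D := Finset.mem_range.1 (hQr hi)
      have e1 := MDA_badi G D X c T F Rs S cS h bad (fun w i => (hbad w i).1) _ hPX i
      have e2 := hT.bdd i hiD
      have e1' : (((MDA_P G X S Rs v).filter fun w => bad w i).card : ℝ) ≤ U + q0 := by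
        have : ((MDA_P G X S Rs v).filter fun w => bad w i).card ≤ U + q0 := by omega
        exact_mod_cast this
      have e6 : (2 * (((MDA_P G X S Rs v).filter fun w => bad w i).card : ℝ)) ≤
          ((MDA_P G X S Rs v).card : ℝ) := by
        nlinarith
      exact_mod_cast e6)
  refine ⟨_, MDA_step G D X c T F Rs S cS h v hv hvS f (fun w hw => ?_) (fun i hi hiF hiT hih => ?_)
    hf3⟩
  · obtain ⟨h1, h2⟩ := hf1 w hw
    rw [MDA_Q, Finset.mem_filter, Finset.mem_range] at h1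
    rw [hbad, not_or] at h2
    exact ⟨h1, h2⟩
  · exact hf2 i (Finset.mem_filter.2 ⟨Finset.mem_range.2 hi, hiF, hiT, hih⟩)

/-- choice of the reserved neighbours -/
theorem MDA_res {V : Type} [Fintype V] (G : SimpleGraph V) (X A Md : Finset V) (q0 : ℕ) (ε : ℝ)
    (F : Finset ℕ) (hε2 : ε ≤ 1 / 2) (hN : (15 * q0 : ℝ) ≤ Fintype.card V)
    (hFc : (F.card : ℝ) ≤ ε / 10 * Fintype.card V) (hMd : Md.card ≤ q0)
    (hX : ∀ x ∈ X, (Fintype.card V : ℝ) / 8 ≤ dgs G (X ∩ A) x ∧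
      (Fintype.card V : ℝ) / 8 ≤ dgs G (X \ A) x) (k : V → ℕ) (hk : ∀ v, k v ≤ F.card) :
    ∀ v ∈ X, ∃ R : Finset V, R.card = k v ∧ ∀ w ∈ R, w ∈ X \ Md ∧ G.Adj v w ∧
      ¬ (v ∈ A ↔ w ∈ A) := by
  intro v hv
  have key : ∀ B : Finset V, B ⊆ X → (∀ w ∈ B, ¬ (v ∈ A ↔ w ∈ A)) →
      (Fintype.card V : ℝ) / 8 ≤ dgs G B v → ∃ R : Finset V, R.card = k v ∧
        ∀ w ∈ R, w ∈ X \ Md ∧ G.Adj v w ∧ ¬ (v ∈ A ↔ w ∈ A) := by
    intro B hBX hBA hB
    have h1 : k v ≤ ((B.filter fun w => G.Adj v w) \ Md).card := by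
      have h2 : (B.filter fun w => G.Adj v w).card ≤
          ((B.filter fun w => G.Adj v w) \ Md).card + Md.card := by
        have := Finset.le_card_sdiff Md (B.filter fun w => G.Adj v w)
        omega
      have h3 : (dgs G B v : ℝ) ≤ ((B.filter fun w => G.Adj v w) \ Md).card + Md.card := by
        exact_mod_cast h2
      have h4 : (Md.card : ℝ) ≤ q0 := by exact_mod_cast hMd
      have h5 : (k v : ℝ) ≤ F.card := by exact_mod_cast hk v
      have h6 : (0 : ℝ) ≤ Fintype.card V := Nat.cast_nonneg _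
      have h7 : (0 : ℝ) ≤ q0 := Nat.cast_nonneg _
      have h8 : (k v : ℝ) ≤ (((B.filter fun w => G.Adj v w) \ Md).card : ℝ) := by
        nlinarith
      exact_mod_cast h8
    obtain ⟨R, hR, hRc⟩ := Finset.exists_subset_card_eq h1
    refine ⟨R, hRc, fun w hw => ?_⟩
    have h2 := Finset.mem_sdiff.1 (hR hw)
    have h3 := Finset.mem_filter.1 h2.1
    exact ⟨Finset.mem_sdiff.2 ⟨hBX h3.1, h2.2⟩, h3.2, hBA w h3.1⟩
  by_cases hA : v ∈ A
  · refine key (X \ A) Finset.sdiff_subset (fun w hw h => ?_) (hX v hv).2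
    exact (Finset.mem_sdiff.1 hw).2 (h.1 hA)
  · refine key (X ∩ A) Finset.inter_subset_left (fun w hw h => ?_) (hX v hv).1
    exact hA (h.2 (Finset.mem_inter.1 hw).2)

theorem MDA (hDBJ : DBJ_stmt) (hSCN : SCN_stmt) : MDA_stmt := by
  intro ε U q0 hε
  refine ⟨15 * q0 + 4 * U + 1, ?_⟩
  intro V _ G D X c T A F Md hN hD hD' hT hF hFc hMdX hMd hX
  have hNr : (15 * q0 + 4 * U + 1 : ℝ) ≤ Fintype.card V := by exact_mod_cast hN
  have h0q : (0 : ℝ) ≤ q0 := Nat.cast_nonneg _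
  have h0U : (0 : ℝ) ≤ U := Nat.cast_nonneg _
  have hNpos : (0 : ℝ) < Fintype.card V := by linarith
  have hε2 : ε ≤ 1 / 2 := by
    have h1 : (D : ℝ) ≤ Fintype.card V := by exact_mod_cast hD'
    have h2 : (1 / 2 + ε) * Fintype.card V ≤ 1 * Fintype.card V := by linarith
    have h3 := le_of_mul_le_mul_right h2 hNpos
    linarith
  have hres := MDA_res G X A Md q0 ε F hε2 (by linarith) hFc hMd hX
    (fun v => F.card - (F.filter fun j => v ∈ Hs G X c T j).card) (fun v => Nat.sub_le _ _)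
  choose! R hRc hRp using hres
  let Rs : SimpleGraph V :=
    { Adj := fun a b => (a ∈ Md ∧ b ∈ R a) ∨ (b ∈ Md ∧ a ∈ R b)
      symm := ⟨fun a b h => h.symm⟩
      loopless := ⟨fun a h => by
        rcases h with h | h
        · exact (Finset.mem_sdiff.1 (hRp a (hMdX h.1) a h.2).1).2 h.1
        · exact (Finset.mem_sdiff.1 (hRp a (hMdX h.1) a h.2).1).2 h.1⟩ }
  have hRs : ∀ a b, Rs.Adj a b ↔ (a ∈ Md ∧ b ∈ R a) ∨ (b ∈ Md ∧ a ∈ R b) := fun a b => Iff.rfl
  clear_value Rs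
  have hR : Rs ≤ G := by
    intro a b h
    rcases (hRs a b).1 h with h | h
    · exact (hRp a (hMdX h.1) b h.2).2.1
    · exact (hRp b (hMdX h.1) a h.2).2.1.symm
  have hRv : ∀ a b, Rs.Adj a b → a ∈ X ∧ b ∈ X := by
    intro a b h
    rcases (hRs a b).1 h with h | h
    · exact ⟨hMdX h.1, (Finset.mem_sdiff.1 (hRp a (hMdX h.1) b h.2).1).1⟩
    · exact ⟨(Finset.mem_sdiff.1 (hRp b (hMdX h.1) a h.2).1).1, hMdX h.1⟩
  have hdR : ∀ v ∈ Md, dg Rs v + (F.filter fun j => v ∈ Hs G X c T j).card = F.card := by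
    intro v hv
    have h1 : dg Rs v = (R v).card := by
      unfold dg dgs
      congr 1
      ext w
      rw [Finset.mem_filter, hRs]
      constructor
      · rintro ⟨_, h | h⟩
        · exact h.2
        · exact absurd hv (Finset.mem_sdiff.1 (hRp w (hMdX h.1) v h.2).1).2
      · intro h
        exact ⟨Finset.mem_univ _, Or.inl ⟨hv, h⟩⟩
    rw [h1, hRc v (hMdX hv)]
    exact Nat.sub_add_cancel (Finset.card_filter_le _ _)
  have main : ∀ S : Finset V, S ⊆ Md → ∃ cS, MDA_Inv G D X c T F Rs S cS := by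
    intro S
    induction S using Finset.induction_on with
    | empty =>
      intro _
      have h1 : ∀ a b, (KG G X ∅ Rs).Adj a b → (outG G X).Adj a b := by
        intro a b h
        have h2 := (MDA_adj G X ∅ Rs a b).1 h
        refine ⟨h2.1.1, fun h3 => h2.1.2 ?_⟩
        rw [Finset.sdiff_empty]
        exact h3
      refine ⟨c, ⟨fun a b h => hT.pec.1 a b (h1 a b h), fun a b b' h h' hc =>
        hT.pec.2 a b b' (h1 a b h) (h1 a b' h') hc⟩, fun _ _ _ => rfl, ?_, ?_, ?_⟩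
      · intro v hv
        exact absurd hv (Finset.notMem_empty v)
      · intro v hv
        exact absurd hv (Finset.notMem_empty v)
      · rintro v hv i hi ⟨w, hw, hc⟩
        exact (hT.tok v hv).2.2 i hi ⟨w, h1 v w hw, hc⟩
    | insert v S hvS ih =>
      intro hS
      obtain ⟨cS, hcS⟩ := ih ((Finset.subset_insert _ _).trans hS)
      have hvMd : v ∈ Md := hS (Finset.mem_insert_self _ _)
      exact MDA_next hDBJ hSCN G D X c T F Rs S cS U q0 ε hT hε2 (by linarith) hD hFc hcS v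
        (hMdX hvMd) hvS ((Finset.card_le_card ((Finset.subset_insert _ _).trans hS)).trans hMd)
        hRv hR hF (hdR v hvMd)
  obtain ⟨c2, h⟩ := main Md (Finset.Subset.refl _)
  refine ⟨c2, Rs, hR, ?_, hdR, h.pec, h.ext, h.nF, h.all, h.tok⟩
  intro v w hvw
  rcases (hRs v w).1 hvw with h1 | h1
  · have h2 := hRp v (hMdX h1.1) w h1.2
    exact ⟨Or.inl ⟨h1.1, h2.1⟩, h2.2.2⟩
  · have h2 := hRp w (hMdX h1.1) v h1.2
    exact ⟨Or.inr ⟨h1.1, h2.1⟩, fun h3 => h2.2.2 h3.symm⟩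

end

end Pool.Agent.OF
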